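import Pool.Agent.V1157.MC.Main

/-!
# Finite groups acting on motivic cohomology modulo constants

Fix a dimension `n` and a degree `k < 0` and weight `j` (that is, higher Chow groups
`CH^j(X, m)_ℚ`, `m = 2j - k`). For a smooth projective complex variety `X` of dimension `n` let
`W(X)` be the quotient of the motivic cohomology group `H^k(X, ℚ(j))` by the subspace of constant
classes, generated by the products of cycles on `X` with motivic cohomology classes of `Spec ℂ`.
The following are equivalent:

1. `W(X) = 0` for all `X`;
2. for some finite group `G` and some non-zero `f ∈ ℚ[G]` the dimension of `f W(X)` is bounded, by a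
   bound valid for all actions of `G` on varieties `X` of dimension `n` (for example, `G = 1` and
   `f = 1`: the dimension of `W(X)` is bounded);
3. every finite group acting on a variety `X` of dimension `n` acts on `W(X)` through an abelian
   quotient;
4. the automorphisms in finite groups acting on varieties of dimension `n` satisfy, on the spaces
   `W(X)`, some non-zero multilinear polynomial identity.

The conjecture of Beilinson and Soulé implies that these conditions hold for all `n`, `k < 0`
and `j`; and they reduce this conjecture to the case of `Spec ℂ`.

Proof of 2 ⇒ 1: let `t` be a class on `S` and let `V` be a complete intersection of dimension `n`,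
stable under `G`, in the power `S^(G × {0, …, D})`. Then `g_* (p 1 m)^* t = (p g m)^* t`, and
`(p h l)_* (p g m)^* t` is a non-zero multiple of `t` if `(g, m) = (h, l)` and constant otherwise,
because the correspondence `(p g m, p h l)_* [V]` is a combination of the classes
`a^i × a^(n-i)`, which factor through the base field.
-/

open CategoryTheory AlgebraicGeometry

universe u v z

namespace Pool.Agent.Results.MP_d72c81_ag.FiniteGroupActions

open Pool.Agent.H914 Pool.Agent.H914.VarClass Pool.Agent.H914.VarClass.Obj Pool.Agent.W492.BB
  Pool.Agent.TH133 Pool.Agent.V1157.MC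
open Pool.Agent.V1157.GK (KData)
open Pool.Agent.V1157.FG (HasEquivariantPower)

theorem result {k : Type u} [Field k] {𝒱 : VarClass k} {C : TheoryData.{u, v, 0} 𝒱 ℚ}
    [IsChowProj C] {P : KData.{u, v, z} C} (B : Base P) (N : ∀ X : 𝒱.Obj, Submodule ℚ (P.A X))
    (hN : IsMotivic B N) (n : ℕ)
    (hP : ∀ (G : Type) [Group G] [Finite G] (M : ℕ) (S : 𝒱.Obj), S.dim = n →
      HasEquivariantPower C n G M S) :
    List.TFAE [AllConstant B N n,
      ∃ (G : Type) (_ : Group G) (_ : Fintype G) (f : G → ℚ) (D : ℕ), f ≠ 0 ∧
        RankAtMost B N n f D,
      ActAbelian B N n,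
      ∃ (d : ℕ) (c : Equiv.Perm (Fin d) → ℚ), c ≠ 0 ∧ ActIdentity B N n d c] :=
  main hN hP

end Pool.Agent.Results.MP_d72c81_ag.FiniteGroupActions
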