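import Pool.Agent.H255R.MR.Map

/-!
# The vanishing of Beilinson and Soulé for products of regular surfaces and for products of curves
-/

open CategoryTheory AlgebraicGeometry

universe u v w x

namespace Pool.Agent.Results.MP_d72c81_ag.RegularSurfaces

open Pool.Agent.H914 Pool.Agent.H914.VarClass Pool.Agent.H914.VarClass.Obj Pool.Agent.W492.BB
  Pool.Agent.W550.Corr Pool.Agent.TH133 Pool.Agent.H255R.HR Pool.Agent.H255R.MR

/-- The vanishing of Beilinson and Soulé for the variety `X` and the higher Chow groups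
`CH^j(X, n)_ℚ = H^{2j-n}(X, ℚ(j))`, with a fixed `n`: they are zero if `2 j - n < 0`. (The classes in
`CH^j(X, n)_ℚ` are those of weight `j` in `M(X) = ⊕_j CH^j(X, n)_ℚ`.) -/
def BSVanishing {k : Type u} [Field k] {𝒱 : VarClass k} {C : TheoryData.{u, v, 0} 𝒱 ℚ}
    {M : ModData.{u, v, x} C} (𝓜 : Fam M) (n : ℤ) (X : 𝒱.Obj) : Prop :=
  ∀ j : ℤ, 2 * j - n < 0 → ∀ t : M.A X, 𝓜.Mem X j t → t = 0

/-- Consider the smooth projective complex varieties `X`, and fix an integer `n`. Let `M(X)` be the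
sum of the higher Chow groups `CH^j(X, n)_ℚ = H^{2j-n}(X, ℚ(j))` for all `j`, a module theory over
the Chow groups; the classes of weight `j` are those in `CH^j(X, n)_ℚ`.

Let `𝒞` be a class of curves with `HasGalQuotients` (for example all curves, or one hyperelliptic
curve). For all varieties `U` and all `N` the following statements are equivalent.

1. The vanishing `H^{2j-n}(X, ℚ(j)) = 0` for all `j` with `2 j - n < 0` holds for the varieties
`X = U × A` and `X = U × A × S`, where `A` is a product of at most `N` regular surfaces dominated by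
products of two curves in `𝒞`, and `S` is a curve in `𝒞`.
2. The same without the condition that the surfaces be regular.
3. The vanishing holds for `U × W`, where `W` is a product of at most `2 N + 1` curves in `𝒞`.
4. The vanishing holds for all varieties which are dominated by varieties `U × W` as in 3. -/
theorem result {k : Type u} [Field k] {𝒱 : VarClass k} (C : TheoryData.{u, v, 0} 𝒱 ℚ)
    [IsChowProj C] {F : Type w} [Field F] [CharZero F] (H : WeilTheoryData.{u, v, w} C F)
    [IsWeilProj H] (M : ModData.{u, v, x} C) (hM : IsModTheory M) (𝓜 : Fam M)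
    (𝒞 : 𝒱.Obj → Prop) (hG : HasGalQuotients.{u, v, w, x} H 𝒞) (U : 𝒱.Obj) (n : ℤ) (N : ℕ) :
    List.TFAE [
      ∀ m ≤ N, ∀ A : 𝒱.Obj, IsProdOf U (IsRegDominated.{u, v, w, x} H 𝒞) m A →
        BSVanishing 𝓜 n A ∧ ∀ S : 𝒱.Obj, 𝒞 S → BSVanishing 𝓜 n (A.prod S),
      ∀ m ≤ N, ∀ A : 𝒱.Obj, IsProdOf U (IsDominated.{u, v, x} C 𝒞) m A →
        BSVanishing 𝓜 n A ∧ ∀ S : 𝒱.Obj, 𝒞 S → BSVanishing 𝓜 n (A.prod S),
      ∀ l ≤ 2 * N + 1, ∀ W : 𝒱.Obj, IsProdOf U 𝒞 l W → BSVanishing 𝓜 n W,
      ∀ l ≤ 2 * N + 1, ∀ W X : 𝒱.Obj, IsProdOf U 𝒞 l W → IsDominatedBy C W X →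
        BSVanishing 𝓜 n X] := by
  refine tfae1 (M := M) (𝓜 := 𝓜) (𝓝 := zeroFam M) hG U ((n - 1) / 2) N _ fun X => ?_
  constructor
  · exact fun h r hr t ht => h r (by omega) t ht
  · exact fun h j hj t ht => h j (by omega) t ht

end Pool.Agent.Results.MP_d72c81_ag.RegularSurfaces
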